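import Mathlib

set_option maxHeartbeats 400000

namespace Pool.Agent.H.MP_b9977e_al

open Finset

lemma exists_fact (S : AddSubmonoid ℕ) (e : ℕ) (g : Fin e → ℕ)
    (hg : Set.range g = {x : ℕ | x ∈ S ∧ x ≠ 0 ∧ ∀ a ∈ S, ∀ b ∈ S, a + b = x → a = 0 ∨ b = 0})
    (n : ℕ) (hn : n ∈ S) : ∃ x : Fin e →₀ ℕ, ∑ i, x i * g i = n := by
  induction n using Nat.strong_induction_on with
  | _ n ih =>
    by_cases h0 : n = 0
    · exact ⟨0, by simp [h0]⟩
    by_cases h1 : ∀ a ∈ S, ∀ b ∈ S, a + b = n → a = 0 ∨ b = 0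
    · have : n ∈ Set.range g := by rw [hg]; exact ⟨hn, h0, h1⟩
      obtain ⟨i, hi⟩ := this
      refine ⟨Finsupp.single i 1, ?_⟩
      rw [Finset.sum_eq_single i (by intro b _ hb; simp [Finsupp.single_apply, hb.symm]) (by simp)]
      simp [hi]
    · push Not at h1
      obtain ⟨a, ha, b, hb, hab, ha0, hb0⟩ := h1
      obtain ⟨x, hx⟩ := ih a (by omega) ha
      obtain ⟨y, hy⟩ := ih b (by omega) hb
      exact ⟨x + y, by simp [add_mul, Finset.sum_add_distrib, hx, hy, hab]⟩

lemma mem_of_fact (S : AddSubmonoid ℕ) (e : ℕ) (g : Fin e → ℕ) (hg : ∀ i, g i ∈ S)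
    (x : Fin e → ℕ) : ∑ i, x i * g i ∈ S :=
  S.sum_mem (fun i _ => by simpa using S.nsmul_mem (hg i) (x i))

/-- Zhai-type inequality -/
lemma zhai (S : AddSubmonoid ℕ) (F : ℕ) (hF : F ∉ S) (hF' : ∀ n : ℕ, F < n → n ∈ S)
    (e : ℕ) (g : Fin e → ℕ) (hgS : ∀ i, g i ∈ S) (hg0 : ∀ i, 0 < g i)
    (hfact : ∀ n ∈ S, ∃ x : Fin e →₀ ℕ, ∑ i, x i * g i = n) (i0 : Fin e) :
    2 * ((F : ℤ) + 1) ≤ 2 * e * (Set.ncard {γ : ℕ | γ ∈ S ∧ γ < F} : ℕ) + (g i0 - 1) * (e - 2) := by
  classical
  set m := g i0 with hm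
  have hm0 : 0 < m := hg0 i0
  set W := F + m with hW
  set Ap := (Finset.range (W + 1)).filter (fun w => w ∈ S ∧ ¬ (m ≤ w ∧ w - m ∈ S)) with hAp
  have hmem : ∀ w, w ∈ Ap ↔ w ≤ W ∧ w ∈ S ∧ ¬ (m ≤ w ∧ w - m ∈ S) := by
    intro w; simp [hAp, Nat.lt_succ_iff]
  have hmul : ∀ k i, k * g i ∈ S := fun k i => by simpa using S.nsmul_mem (hgS i) k
  have hres : ∀ w1 ∈ Ap, ∀ w2 ∈ Ap, ∀ k, w2 = w1 + k * m → k = 0 := by
    intro w1 h1 w2 h2 k hk
    by_contra hk0
    obtain ⟨k, rfl⟩ : ∃ k', k = k' + 1 := ⟨k - 1, by omega⟩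
    apply ((hmem w2).1 h2).2.2
    have e1 : w2 = (w1 + k * m) + m := by rw [hk]; ring
    refine ⟨by omega, ?_⟩
    rw [e1, Nat.add_sub_cancel]
    exact S.add_mem ((hmem w1).1 h1).2.1 (hmul k i0)
  have hinj : ∀ w1 ∈ Ap, ∀ w2 ∈ Ap, ∀ k1 k2, w1 + k1 * m = w2 + k2 * m → w1 = w2 ∧ k1 = k2 := by
    intro w1 h1 w2 h2 k1 k2 h
    rcases le_total k1 k2 with hk | hk
    · obtain ⟨k, rfl⟩ := Nat.exists_eq_add_of_le hk
      have := hres w2 h2 w1 h1 k (by nlinarith)
      subst this
      exact ⟨by simpa using h, by simp⟩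
    · obtain ⟨k, rfl⟩ := Nat.exists_eq_add_of_le hk
      have := hres w1 h1 w2 h2 k (by nlinarith)
      subst this
      exact ⟨by simpa using h, by simp⟩
  have hcard : Ap.card ≤ m := by
    have : Ap.card ≤ (Finset.range m).card := by
      apply Finset.card_le_card_of_injOn (fun w => w % m)
      · intro w _
        simpa using Nat.mod_lt w hm0
      · intro w1 h1 w2 h2 h
        simp only at h
        have a1 := Nat.mod_add_div' w1 m
        have a2 := Nat.mod_add_div' w2 m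
        exact (hinj w1 h1 w2 h2 (w2 / m) (w1 / m) (by omega)).1
    simpa using this
  -- lower bound for eta
  have hfin : {γ : ℕ | γ ∈ S ∧ γ < F}.Finite := (Set.finite_lt_nat F).subset (fun x hx => hx.2)
  have heta : ∑ w ∈ Ap, (W - w) / m ≤ Set.ncard {γ : ℕ | γ ∈ S ∧ γ < F} := by
    rw [Set.ncard_eq_toFinset_card _ hfin]
    have : ∑ w ∈ Ap, (W - w) / m = (Ap.sigma (fun w => Finset.range ((W - w) / m))).card := by
      simp [Finset.card_sigma]
    rw [this]
    apply Finset.card_le_card_of_injOn (fun p => p.1 + p.2 * m)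
    · rintro ⟨w, k⟩ hp
      simp only [Finset.coe_sigma, Set.mem_sigma_iff, Finset.mem_coe, Finset.mem_range] at hp
      simp only [Set.Finite.coe_toFinset, Set.mem_setOf_eq]
      have h1 : w + k * m ∈ S := S.add_mem ((hmem w).1 hp.1).2.1 (hmul k i0)
      refine ⟨h1, ?_⟩
      have h2 : (k + 1) * m ≤ W - w := (Nat.le_div_iff_mul_le hm0).1 hp.2
      have h3 := ((hmem w).1 hp.1).1
      have h4 : w + k * m ≤ F := by
        have : (k + 1) * m = k * m + m := by ring
        omega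
      rcases h4.lt_or_eq with h | h
      · exact h
      · exact absurd (h ▸ h1) hF
    · rintro ⟨w1, k1⟩ h1 ⟨w2, k2⟩ h2 h
      simp only [Finset.coe_sigma, Set.mem_sigma_iff, Finset.mem_coe, Finset.mem_range] at h1 h2
      obtain ⟨rfl, rfl⟩ := hinj w1 h1.1 w2 h2.1 k1 k2 h
      rfl
  have hdesc : ∀ t, t ∈ S → t ≤ W → ∃ w ∈ Ap, ∃ k, t = w + k * m := by
    intro t
    induction t using Nat.strong_induction_on with
    | _ t ih =>
      intro ht htW
      by_cases h : m ≤ t ∧ t - m ∈ S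
      · obtain ⟨w, hw, k, hk⟩ := ih (t - m) (by omega) h.2 (by omega)
        refine ⟨w, hw, k + 1, ?_⟩
        have : (k + 1) * m = k * m + m := by ring
        omega
      · exact ⟨t, (hmem t).2 ⟨htW, ht, h⟩, 0, by simp⟩
  have htop : ∑ j ∈ Finset.range m, (F + 1 + j) ≤ ∑ w ∈ Ap, (w + (W - w) / m * m) := by
    have h1 : ∑ j ∈ Finset.range m, (F + 1 + j) =
        ∑ t ∈ (Finset.range m).image (fun j => F + 1 + j), t := by
      rw [Finset.sum_image (by intro a _ b _ h; simpa using h)]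
    rw [h1]
    refine le_trans (Finset.sum_le_sum_of_subset (t := Ap.image (fun w => w + (W - w) / m * m)) ?_)
      (Finset.sum_image_le_of_nonneg (fun _ _ => Nat.zero_le _))
    intro t ht
    obtain ⟨j, hj, rfl⟩ := Finset.mem_image.1 ht
    simp only [Finset.mem_range] at hj
    obtain ⟨w, hw, k, hk⟩ := hdesc (F + 1 + j) (hF' _ (by omega)) (by omega)
    refine Finset.mem_image.2 ⟨w, hw, ?_⟩
    have : (W - w) / m = k := by
      apply Nat.div_eq_of_lt_le
      · omega
      · have : (k + 1) * m = k * m + m := by ring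
        omega
    rw [this, hk]
  have hgauss : 2 * ∑ j ∈ Finset.range m, (F + 1 + j) + m = 2 * m * (F + 1) + m * m := by
    have : ∀ n, 2 * ∑ j ∈ Finset.range n, (F + 1 + j) + n = 2 * n * (F + 1) + n * n := by
      intro n
      induction n with
      | zero => simp
      | succ n ih => rw [Finset.sum_range_succ]; nlinarith
    exact this m
  -- upper bound for the sum of the Apery set
  have hx : ∀ w ∈ Ap, ∃ x : Fin e →₀ ℕ, ∑ i, x i * g i = w :=
    fun w hw => hfact w ((hmem w).1 hw).2.1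
  choose! x hx using hx
  have hsub : ∀ w ∈ Ap, ∀ i s, s ≤ x w i → s * g i ≤ w ∧ w - s * g i ∈ S := by
    intro w hw i s hs
    have h1 := mem_of_fact S e g hgS (Function.update (x w) i (x w i - s))
    have h2 : ∑ j, Function.update (x w) i (x w i - s) j * g j + s * g i = w := by
      refine Eq.trans ?_ (hx w hw)
      rw [← Finset.add_sum_erase _ _ (Finset.mem_univ i),
        ← Finset.add_sum_erase _ (fun j => x w j * g j) (Finset.mem_univ i)]
      have : ∑ j ∈ Finset.univ.erase i, Function.update (x w) i (x w i - s) j * g j =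
          ∑ j ∈ Finset.univ.erase i, x w j * g j := by
        apply Finset.sum_congr rfl
        intro j hj
        rw [Function.update_of_ne (Finset.ne_of_mem_erase hj)]
      rw [this, Function.update_self]
      obtain ⟨u, hu⟩ := Nat.exists_eq_add_of_le hs
      rw [hu, Nat.add_sub_cancel_left]
      ring
    refine ⟨by omega, ?_⟩
    have : w - s * g i = ∑ j, Function.update (x w) i (x w i - s) j * g j := by omega
    rw [this]; exact h1
  have hx0 : ∀ w ∈ Ap, x w i0 = 0 := by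
    intro w hw
    by_contra h
    have := hsub w hw i0 1 (by omega)
    rw [one_mul] at this
    exact ((hmem w).1 hw).2.2 this
  have hdir : ∀ i, ∑ w ∈ Ap, x w i * g i + ∑ w ∈ Ap, w ≤ Ap.card * W := by
    intro i
    have h1 : ∑ w ∈ Ap, x w i ≤ ∑ y ∈ Ap, (W - y) / g i := by
      have a1 : ∑ w ∈ Ap, x w i = (Ap.sigma (fun w => Finset.range (x w i))).card := by
        simp [Finset.card_sigma]
      have a2 : ∑ y ∈ Ap, (W - y) / g i =
          (Ap.sigma (fun y => Finset.range ((W - y) / g i))).card := by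
        simp [Finset.card_sigma]
      rw [a1, a2]
      apply Finset.card_le_card_of_injOn (fun p => ⟨p.1 - (p.2 + 1) * g i, p.2⟩)
      · rintro ⟨w, s⟩ hp
        simp only [Finset.coe_sigma, Set.mem_sigma_iff, Finset.mem_coe, Finset.mem_range] at hp ⊢
        obtain ⟨h1, h2⟩ := hsub w hp.1 i (s + 1) hp.2
        have h3 := (hmem w).1 hp.1
        refine ⟨(hmem _).2 ⟨by omega, h2, ?_⟩, ?_⟩
        · rintro ⟨h4, h5⟩
          apply h3.2.2
          refine ⟨by omega, ?_⟩
          have : w - m = (w - (s + 1) * g i - m) + (s + 1) * g i := by omega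
          rw [this]
          exact S.add_mem h5 (hmul _ _)
        · exact (Nat.le_div_iff_mul_le (hg0 i) (x := s + 1)).2 (by omega)
      · rintro ⟨w1, s1⟩ h1 ⟨w2, s2⟩ h2 h
        simp only [Finset.coe_sigma, Set.mem_sigma_iff, Finset.mem_coe, Finset.mem_range] at h1 h2
        simp only [Sigma.mk.injEq, heq_eq_eq] at h
        obtain ⟨h3, rfl⟩ := h
        have a1 := (hsub w1 h1.1 i (s1 + 1) h1.2).1
        have a2 := (hsub w2 h2.1 i (s1 + 1) h2.2).1
        have : w1 = w2 := by omega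
        subst this
        rfl
    calc ∑ w ∈ Ap, x w i * g i + ∑ w ∈ Ap, w
        = (∑ w ∈ Ap, x w i) * g i + ∑ w ∈ Ap, w := by rw [Finset.sum_mul]
      _ ≤ (∑ y ∈ Ap, (W - y) / g i) * g i + ∑ w ∈ Ap, w := by gcongr
      _ = ∑ y ∈ Ap, ((W - y) / g i * g i + y) := by rw [Finset.sum_mul, Finset.sum_add_distrib]
      _ ≤ ∑ y ∈ Ap, W := by
          apply Finset.sum_le_sum
          intro y hy
          have := Nat.div_mul_le_self (W - y) (g i)
          have := ((hmem y).1 hy).1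
          omega
      _ = Ap.card * W := by simp
  have hsum : ∑ w ∈ Ap, w + (e - 1) * ∑ w ∈ Ap, w ≤ (e - 1) * (m * W) := by
    have h1 : ∑ w ∈ Ap, w = ∑ i ∈ Finset.univ.erase i0, ∑ w ∈ Ap, x w i * g i := by
      rw [Finset.sum_comm]
      apply Finset.sum_congr rfl
      intro w hw
      conv_lhs => rw [← hx w hw, ← Finset.add_sum_erase _ _ (Finset.mem_univ i0), hx0 w hw]
      simp
    have h2 : ∑ i ∈ Finset.univ.erase i0, (∑ w ∈ Ap, x w i * g i + ∑ w ∈ Ap, w) ≤
        ∑ i ∈ Finset.univ.erase i0, m * W :=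
      Finset.sum_le_sum (fun i _ => le_trans (hdir i) (Nat.mul_le_mul_right W hcard))
    rw [Finset.sum_add_distrib, ← h1] at h2
    simpa [Finset.card_erase_of_mem] using h2
  have he : 1 ≤ e := by
    have := i0.2; omega
  obtain ⟨e', rfl⟩ : ∃ e', e = e' + 1 := ⟨e - 1, by omega⟩
  rw [Finset.sum_add_distrib (s := Ap), ← Finset.sum_mul] at htop
  set A := ∑ w ∈ Ap, w
  set B := ∑ w ∈ Ap, (W - w) / m
  set η := Set.ncard {γ : ℕ | γ ∈ S ∧ γ < F}
  set G := ∑ j ∈ Finset.range m, (F + 1 + j)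
  simp only [Nat.add_sub_cancel] at hsum
  have h3 : B * m ≤ η * m := Nat.mul_le_mul_right m heta
  have hW' : (W : ℤ) = F + m := by rw [hW]; push_cast; ring
  zify at hsum htop hgauss h3 hm0
  rw [hW'] at hsum
  push_cast
  apply le_of_mul_le_mul_left _ hm0
  have he' : (0 : ℤ) ≤ e' := by positivity
  have h4 : (G : ℤ) ≤ A + η * m := by linarith
  have h5 := mul_le_mul_of_nonneg_left h4 (show (0 : ℤ) ≤ 2 * (e' + 1) by positivity)
  have h6 : (2 * (e' + 1) : ℤ) * G = (e' + 1) * (2 * m * (F + 1) + m * m - m) := by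
    rw [← hgauss]; ring
  nlinarith

open MvPolynomial in
lemma mem_mul (S : AddSubmonoid ℕ) (e : ℕ) (g : Fin e → ℕ)
    (hfact : ∀ n ∈ S, ∃ x : Fin e →₀ ℕ, ∑ i, x i * g i = n) (d : ℕ) (hd0 : 0 < d)
    (hd : ∀ i j, i ≠ j → ∃ s ∈ S, d = s + g i + g j)
    (f : MvPolynomial (Fin e) ℚ)
    (hf : f ∈ RingHom.ker (MvPolynomial.aeval (fun i : Fin e => (Polynomial.X : Polynomial ℚ) ^ g i)))
    (hh : MvPolynomial.IsWeightedHomogeneous (fun i : Fin e => g i) f d) :
    f ∈ Ideal.span (Set.range (MvPolynomial.X : Fin e → MvPolynomial (Fin e) ℚ)) *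
      RingHom.ker (MvPolynomial.aeval (fun i : Fin e => (Polynomial.X : Polynomial ℚ) ^ g i)) := by
  classical
  set φ := (MvPolynomial.aeval (fun i : Fin e => (Polynomial.X : Polynomial ℚ) ^ g i) :
    MvPolynomial (Fin e) ℚ →ₐ[ℚ] Polynomial ℚ) with hφ
  set J := Ideal.span (Set.range (MvPolynomial.X : Fin e → MvPolynomial (Fin e) ℚ)) *
      RingHom.ker φ with hJ
  have hmon : ∀ α : Fin e →₀ ℕ, φ (monomial α 1) = Polynomial.X ^ (∑ i, α i * g i) := by
    intro α
    rw [hφ, aeval_monomial, map_one, one_mul, Finsupp.prod_fintype _ _ (by simp),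
      ← Finset.prod_pow_eq_pow_sum]
    apply Finset.prod_congr rfl
    intro i _
    rw [← pow_mul, mul_comm]
  have hsingle : ∀ (α : Fin e →₀ ℕ) i, ∑ j, (α + Finsupp.single i 1 : Fin e →₀ ℕ) j * g j =
      ∑ j, α j * g j + g i := by
    intro α i
    simp only [Finsupp.add_apply, add_mul, Finset.sum_add_distrib]
    congr 1
    rw [Finset.sum_eq_single i (by intro b _ hb; simp [Finsupp.single_apply, hb.symm]) (by simp)]
    simp
  have hshare : ∀ (α β : Fin e →₀ ℕ) i, ∑ j, α j * g j = ∑ j, β j * g j → α i ≠ 0 → β i ≠ 0 →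
      monomial α (1 : ℚ) - monomial β 1 ∈ J := by
    intro α β i h ha hb
    obtain ⟨α', rfl⟩ : ∃ α', α = α' + Finsupp.single i 1 :=
      ⟨α - Finsupp.single i 1, (tsub_add_cancel_of_le (by
        rw [Finsupp.single_le_iff]; omega)).symm⟩
    obtain ⟨β', rfl⟩ : ∃ β', β = β' + Finsupp.single i 1 :=
      ⟨β - Finsupp.single i 1, (tsub_add_cancel_of_le (by
        rw [Finsupp.single_le_iff]; omega)).symm⟩
    rw [hsingle, hsingle] at h
    have e1 : monomial (α' + Finsupp.single i 1) (1 : ℚ) - monomial (β' + Finsupp.single i 1) 1 =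
        X i * (monomial α' 1 - monomial β' 1) := by
      rw [monomial_add_single, monomial_add_single]; ring
    rw [e1]
    apply Ideal.mul_mem_mul (Ideal.subset_span (Set.mem_range_self i))
    rw [RingHom.mem_ker, map_sub, hmon, hmon, show ∑ j, α' j * g j = ∑ j, β' j * g j by omega,
      sub_self]
  have hne : ∀ α : Fin e →₀ ℕ, ∑ j, α j * g j = d → ∃ i, α i ≠ 0 := by
    intro α h
    by_contra hc
    push Not at hc
    simp [hc] at h
    omega
  have hall : ∀ α β : Fin e →₀ ℕ, ∑ j, α j * g j = d → ∑ j, β j * g j = d →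
      monomial α (1 : ℚ) - monomial β 1 ∈ J := by
    intro α β ha hb
    obtain ⟨i, hi⟩ := hne α ha
    obtain ⟨j, hj⟩ := hne β hb
    by_cases hij : i = j
    · subst hij
      exact hshare α β i (by rw [ha, hb]) hi hj
    · obtain ⟨s, hs, hds⟩ := hd i j hij
      obtain ⟨γ, hγ⟩ := hfact s hs
      have h1 : ∑ k, (γ + Finsupp.single i 1 + Finsupp.single j 1 : Fin e →₀ ℕ) k * g k = d := by
        rw [hsingle, hsingle, hγ, hds]
      have h2 := hshare α _ i (ha.trans h1.symm) hi (by simp)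
      have h3 := hshare _ β j (h1.trans hb.symm) (by simp) hj
      simpa using J.add_mem h2 h3
  have hsupp : ∀ α ∈ f.support, ∑ j, α j * g j = d := by
    intro α hα
    have := hh (mem_support_iff.1 hα)
    rw [← this, Finsupp.weight_apply, Finsupp.sum_fintype _ _ (by simp)]
    simp
  rcases f.support.eq_empty_or_nonempty with h0 | ⟨β, hβ⟩
  · rw [support_eq_empty.1 h0]; exact J.zero_mem
  have hf1 : f = ∑ α ∈ f.support, C (coeff α f) * monomial α 1 := by
    conv_lhs => rw [f.as_sum]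
    apply Finset.sum_congr rfl
    intro α _
    rw [C_mul_monomial, mul_one]
  have hc : ∑ α ∈ f.support, coeff α f = 0 := by
    have h1 : φ f = Polynomial.C (∑ α ∈ f.support, coeff α f) * Polynomial.X ^ d := by
      conv_lhs => rw [hf1]
      rw [map_sum, map_sum, Finset.sum_mul]
      apply Finset.sum_congr rfl
      intro α hα
      rw [map_mul, hmon, hsupp α hα, hφ, algHom_C]
      rfl
    rw [RingHom.mem_ker] at hf
    rw [hf] at h1
    have := (mul_eq_zero.1 h1.symm).resolve_right (pow_ne_zero _ Polynomial.X_ne_zero)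
    exact Polynomial.C_eq_zero.1 this
  have hf2 : f = ∑ α ∈ f.support, C (coeff α f) * (monomial α 1 - monomial β 1) := by
    simp only [mul_sub, Finset.sum_sub_distrib]
    rw [← hf1, ← Finset.sum_mul, ← map_sum, hc]
    simp
  rw [hf2]
  exact J.sum_mem (fun α hα => J.mul_mem_left _ (hall α β (hsupp α hα) (hsupp β hβ)))

end Pool.Agent.H.MP_b9977e_al
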